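import Pool.Agent.K.MP_39eed7_co.C0

/-!
For every `k` and all sufficiently large `d` the infimum `f(k,d)` is attained, with an explicit
value.
-/

set_option autoImplicit false

open Finset

namespace Pool.Agent.Results.MP_39eed7_co.LargeDegree

/-- every vertex of `S` has at most `k` neighbours inside `S` -/
def KIndep {V : Type} (k : ℕ) (G : SimpleGraph V) (S : Set V) : Prop :=
  ∀ v ∈ S, (S ∩ G.neighborSet v).ncard ≤ k

/-- the `k`-independence number -/
noncomputable def alphaK {V : Type} (k : ℕ) (G : SimpleGraph V) : ℕ :=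
  sSup {s | ∃ S : Set V, KIndep k G S ∧ S.ncard = s}

/-- the ratios `α_k(G) / n(G)` of finite nonempty graphs of average degree at most `d` -/
def ratios (k d : ℕ) : Set ℝ :=
  {r | ∃ (V : Type) (_ : Fintype V) (G : SimpleGraph V), Nonempty V ∧
    (2 * G.edgeSet.ncard : ℝ) / Fintype.card V ≤ d ∧ r = (alphaK k G : ℝ) / Fintype.card V}

open Pool.Agent.P.MP_39eed7_co

section
variable {V : Type} [Fintype V] [DecidableEq V] (k : ℕ) (G : SimpleGraph V)

omit [Fintype V] in
lemma kIndep_iff (S : Finset V) : KIndep k G S ↔ Valid k G ⊥ S := by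
  have : ∀ v, ((S : Set V) ∩ G.neighborSet v).ncard = dg G S v := fun v => by
    rw [dg, ← Set.ncard_coe_finset]
    congr 1
    ext w
    simp
  simp [KIndep, Valid, this]

lemma alphaK_eq : alphaK k G = al k G ⊥ univ := by
  refine IsGreatest.csSup_eq ⟨?_, ?_⟩
  · obtain ⟨S, -, h1, h2⟩ := exists_al k G ⊥ univ
    exact ⟨S, (kIndep_iff k G S).2 h1, by rw [Set.ncard_coe_finset, h2]⟩
  · rintro _ ⟨S, h, rfl⟩
    lift S to Finset V using S.toFinite
    rw [Set.ncard_coe_finset]
    exact le_al (subset_univ _) ((kIndep_iff k G S).1 h)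

lemma edge_eq : 2 * G.edgeSet.ncard = E2 G univ := by
  classical
  rw [← SimpleGraph.coe_edgeFinset, Set.ncard_coe_finset,
    ← SimpleGraph.sum_degrees_eq_twice_card_edges]
  refine sum_congr rfl fun v _ => ?_
  rw [dg, ← SimpleGraph.card_neighborFinset_eq_degree]
  congr 1
  ext w
  simp

end

lemma key {k d m g : ℕ} {x y : ℝ} (hy : 0 < y)
    (h1 : ∀ (V : Type) [DecidableEq V] (G : SimpleGraph V) (U : Finset V) (H : SimpleGraph V),
      Ineq k m (m * (m + 1) + g) (4 * k + 2) G H U) (hm : 0 < m)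
    (h2 : x * (m * (m + 1) + g) = (k + 1) * (2 * m - d) * y) {F : SimpleGraph ℕ}
    (hF : ∀ S, Valid k F ⊥ S → S.card ≤ k + 1) {a p b q : ℕ} (h3 : 0 < a * p + b * q)
    (h4 : a * E2 F (range p) + b * E2 F (range q) ≤ d * (a * p + b * q))
    (h5 : ((k : ℝ) + 1) * (a + b) * y = x * (a * p + b * q)) : IsLeast (ratios k d) (x / y) := by
  have hl : x / y ∈ lowerBounds (ratios k d) := by
    rintro _ ⟨V, _, G, hV, hd, rfl⟩
    classical
    have n0 : (0 : ℝ) < Fintype.card V := by exact_mod_cast Fintype.card_pos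
    have e1 := h1 V G univ ⊥
    have e2 : E2 (⊥ : SimpleGraph V) univ = 0 := sum_eq_zero fun v _ => dg_eq_zero.2 (by simp)
    rw [Ineq, e2, mul_zero, add_zero, ← edge_eq, ← alphaK_eq, card_univ] at e1
    have e3 : 2 * ((k : ℝ) + 1) * m * Fintype.card V ≤
        (k + 1) * (2 * G.edgeSet.ncard) + alphaK k G * (m * (m + 1) + g) := by exact_mod_cast e1
    rw [div_le_iff₀ n0] at hd
    have e4 : ((k : ℝ) + 1) * (2 * G.edgeSet.ncard) ≤ (k + 1) * (d * Fintype.card V) := by gcongr
    rw [div_le_div_iff₀ hy n0]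
    refine le_of_mul_le_mul_right (a := (m : ℝ) * (m + 1) + g) ?_ (by positivity)
    calc _ = x * (m * (m + 1) + g) * Fintype.card V := by ring
      _ = ((k + 1) * (2 * m - d) * Fintype.card V) * y := by rw [h2]; ring
      _ ≤ (alphaK k G * (m * (m + 1) + g)) * y :=
          mul_le_mul_of_nonneg_right (by linarith) hy.le
      _ = _ := by ring
  obtain ⟨V, _, _, G, g1, g2, g3⟩ := exists_two hF a p b q
  have n0 : (0 : ℝ) < Fintype.card V := by exact_mod_cast g1 ▸ h3
  have hmem : (alphaK k G : ℝ) / Fintype.card V ∈ ratios k d := by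
    refine ⟨V, inferInstance, G, Fintype.card_pos_iff.1 (g1 ▸ h3), ?_, rfl⟩
    rw [div_le_iff₀ n0]
    have := (edge_eq G).trans_le (g2.trans (g1 ▸ h4))
    exact_mod_cast this
  refine ⟨le_antisymm ?_ (hl hmem) ▸ hmem, hl⟩
  rw [div_le_div_iff₀ n0 hy, alphaK_eq, g1]
  have : (al k G ⊥ univ : ℝ) ≤ (k + 1) * (a + b) := by exact_mod_cast g3
  push_cast
  rw [← h5]
  gcongr

theorem result (k : ℕ) : ∃ d₀ : ℕ, ∀ d ≥ d₀, IsLeast (ratios k d)
    (if Even k then ((k + 1) * (d + 2) : ℝ) / ((d + 1) * (d + 2) + k * (k + 1))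
      else if Even d then ((k + 1) : ℝ) / (d + 2)
      else ((k + 1) * (d + 2) : ℝ) / ((d + 1) * (d + 3))) := by
  obtain ⟨m0, h⟩ := sharp k
  refine ⟨m0 + k * (k + 1) + k, fun d hd => ?_⟩
  split_ifs with h1 h2
  · obtain ⟨a, ha⟩ := Nat.exists_eq_add_of_le (show k * (k + 1) ≤ d + 2 by omega)
    have ha' : (a : ℝ) = d + 2 - k * (k + 1) := by
      have : (d : ℝ) + 2 = k * (k + 1) + a := by exact_mod_cast ha
      linarith
    refine key (by positivity) (h (d + 1) (by omega) (k * (k + 1)) le_rfl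
      fun ho => absurd h1 (Nat.not_even_iff_odd.2 ho)) (by omega) (by push_cast; ring)
      F1_al (a := a) (p := d + 1) (b := k * (k + 1)) (q := d + 2) ?_ ?_
      (by push_cast; rw [ha']; ring)
    · nlinarith [Nat.zero_le (a * d), Nat.zero_le (k * (k + 1) * d)]
    · have e1 := Nat.mul_le_mul_left a (F1_E2 (k := k) (p := d + 1) (by omega))
      have e2 := Nat.mul_le_mul_left (k * (k + 1)) (F1_E2 (k := k) (p := d + 2) (by omega))
      generalize k * (k + 1) = g at *
      nlinarith
  · refine key (by positivity) (h (d + 2) (by omega) (d + 2) (by omega)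
      fun _ => ⟨h2.add even_two, le_rfl⟩) (by omega) (by push_cast; ring)
      (F2_al (Nat.not_even_iff_odd.1 h1)) (a := 1) (p := d + 2) (b := 0) (q := 0) (by omega) ?_
      (by push_cast; ring)
    have e1 := F2_E2 (h2.add even_two)
    nlinarith
  · have h3 : Even (d + 1) := (Nat.not_even_iff_odd.1 h2).add_one
    refine key (by positivity) (h (d + 1) (by omega) (d + 1) (by omega)
      fun _ => ⟨h3, le_rfl⟩) (by omega) (by push_cast; ring)
      (F2_al (Nat.not_even_iff_odd.1 h1)) (a := d + 3) (p := d + 1) (b := d + 1) (q := d + 1 + 2)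
      (by positivity) ?_ (by push_cast; ring)
    have e1 := Nat.mul_le_mul_left (d + 3) (F2_E2 h3)
    have e2 := Nat.mul_le_mul_left (d + 1) (F2_E2 (h3.add even_two))
    nlinarith

end Pool.Agent.Results.MP_39eed7_co.LargeDegree
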