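import Pool.Agent.P.MP_39eed7_co.SmC

/-!
For `d = 2` and `d = 3` and every `k ≥ d` the infimum `f(k,d)` is attained, with an explicit value.
-/

set_option autoImplicit false

open Finset

namespace Pool.Agent.Results.MP_39eed7_co.SmallDegree

/-- every vertex of `S` has at most `k` neighbours inside `S` -/
def KIndep {V : Type} (k : ℕ) (G : SimpleGraph V) (S : Set V) : Prop :=
  ∀ v ∈ S, (S ∩ G.neighborSet v).ncard ≤ k

/-- the `k`-independence number -/
noncomputable def alphaK {V : Type} (k : ℕ) (G : SimpleGraph V) : ℕ :=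
  sSup {s | ∃ S : Set V, KIndep k G S ∧ S.ncard = s}

/-- the ratios `α_k(G) / n(G)` of finite nonempty graphs of average degree at most `d` -/
def ratios (k d : ℕ) : Set ℝ :=
  {r | ∃ (V : Type) (_ : Fintype V) (G : SimpleGraph V), Nonempty V ∧
    (2 * G.edgeSet.ncard : ℝ) / Fintype.card V ≤ d ∧ r = (alphaK k G : ℝ) / Fintype.card V}

open Pool.Agent.P.MP_39eed7_co.Sm

section
variable {V : Type} [Fintype V] [DecidableEq V] (k : ℕ) (G : SimpleGraph V)

lemma kIndep_iff (S : Finset V) : KIndep k G S ↔ ∀ v ∈ S, (S ∩ nb G v).card ≤ k := by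
  have : ∀ v, ((S : Set V) ∩ G.neighborSet v).ncard = (S ∩ nb G v).card := fun v => by
    rw [← Set.ncard_coe_finset]
    congr 1
    ext w
    simp
  simp [KIndep, this]

omit [DecidableEq V] in
lemma le_alphaK {S : Set V} (h : KIndep k G S) : S.ncard ≤ alphaK k G :=
  le_csSup ⟨Nat.card V, by
    rintro _ ⟨T, -, rfl⟩
    exact Set.ncard_le_card T⟩ ⟨S, h, rfl⟩

lemma alphaK_le {m : ℕ} (h : ∀ S : Finset V, (∀ v ∈ S, (S ∩ nb G v).card ≤ k) → S.card ≤ m) :
    alphaK k G ≤ m := by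
  refine csSup_le ⟨0, ∅, by simp [KIndep], by simp⟩ ?_
  rintro _ ⟨S, hS, rfl⟩
  lift S to Finset V using S.toFinite
  rw [Set.ncard_coe_finset]
  exact h S ((kIndep_iff k G S).1 hS)

lemma edge_eq : 2 * G.edgeSet.ncard = ∑ v, dg G v := by
  classical
  rw [← SimpleGraph.coe_edgeFinset, Set.ncard_coe_finset,
    ← SimpleGraph.sum_degrees_eq_twice_card_edges]
  refine sum_congr rfl fun v _ => ?_
  rw [dg, ← SimpleGraph.card_neighborFinset_eq_degree]
  congr 1
  ext w
  simp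

/-- the linear inequality `(k+1)(k+2)(n - α) ≤ (k+1) e + α` -/
lemma linear (hk : 2 ≤ k) : 2 * (k + 1) * (k + 2) * Fintype.card V ≤
    (k + 1) * (2 * G.edgeSet.ncard) + 2 * (k * k + 3 * k + 3) * alphaK k G := by
  obtain ⟨D, h1, h2⟩ := main hk G
  have h3 : KIndep k G (Dᶜ : Finset V) := (kIndep_iff k G _).2 fun v hv => by
    refine le_trans (card_le_card fun w hw => ?_) (h1 v (mem_compl.1 hv))
    rw [mem_inter, mem_compl] at hw
    exact mem_sdiff.2 ⟨hw.2, hw.1⟩
  have h4 := le_alphaK k G h3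
  rw [Set.ncard_coe_finset] at h4
  have h5 := card_add_card_compl D
  have h6 := Nat.mul_le_mul_left (2 * (k * k + 3 * k + 3)) h4
  rw [edge_eq]
  rw [← h5] at h2 ⊢
  nlinarith

end

lemma key {k d a b : ℕ} (hk : 2 ≤ k) (h3 : 0 < a * (k + 2) + b * (k + 3))
    (h4 : a * (2 * k + 2) + b * (4 * k + 6) ≤ d * (a * (k + 2) + b * (k + 3)))
    (h5 : ((a : ℝ) + b) * (2 * (k ^ 2 + 3 * k + 3)) =
      (2 * k + 4 - d) * (a * (k + 2) + b * (k + 3))) :
    IsLeast (ratios k d) (((k + 1) * (2 * k + 4 - d) : ℝ) / (2 * (k ^ 2 + 3 * k + 3))) := by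
  have hy : (0 : ℝ) < 2 * (k ^ 2 + 3 * k + 3) := by positivity
  have hl : ((k + 1) * (2 * k + 4 - d) : ℝ) / (2 * (k ^ 2 + 3 * k + 3)) ∈
      lowerBounds (ratios k d) := by
    rintro _ ⟨V, _, G, hV, hd, rfl⟩
    classical
    have n0 : (0 : ℝ) < Fintype.card V := by exact_mod_cast Fintype.card_pos
    have e3 : 2 * ((k : ℝ) + 1) * (k + 2) * Fintype.card V ≤
        (k + 1) * (2 * G.edgeSet.ncard) + 2 * (k * k + 3 * k + 3) * alphaK k G := by
      exact_mod_cast linear k G hk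
    rw [div_le_iff₀ n0] at hd
    have e4 : ((k : ℝ) + 1) * (2 * G.edgeSet.ncard) ≤ (k + 1) * (d * Fintype.card V) := by gcongr
    rw [div_le_div_iff₀ hy n0]
    nlinarith
  obtain ⟨V, _, _, G, g1, g2, g3⟩ := exists_mix k a b
  have n0 : (0 : ℝ) < Fintype.card V := by exact_mod_cast g1 ▸ h3
  have hmem : (alphaK k G : ℝ) / Fintype.card V ∈ ratios k d := by
    refine ⟨V, inferInstance, G, Fintype.card_pos_iff.1 (g1 ▸ h3), ?_, rfl⟩
    rw [div_le_iff₀ n0]
    have := (edge_eq G).trans_le (g2.trans (g1 ▸ h4))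
    exact_mod_cast this
  refine ⟨le_antisymm ?_ (hl hmem) ▸ hmem, hl⟩
  rw [div_le_div_iff₀ n0 hy, g1]
  have : (alphaK k G : ℝ) ≤ (a + b) * (k + 1) := by exact_mod_cast alphaK_le k G g3
  push_cast
  rw [mul_assoc, ← h5]
  nlinarith

theorem result (k d : ℕ) (hd : d = 2 ∨ d = 3) (hk : d ≤ k) :
    IsLeast (ratios k d) (((k + 1) * (2 * k + 4 - d) : ℝ) / (2 * (k ^ 2 + 3 * k + 3))) := by
  rcases hd with rfl | rfl
  · exact key (a := k) (b := 1) hk (by omega) (by nlinarith) (by push_cast; ring)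
  · obtain ⟨j, rfl⟩ := Nat.exists_eq_add_of_le hk
    exact key (a := j) (b := j + 7) (by omega) (by positivity) (by nlinarith) (by push_cast; ring)

end Pool.Agent.Results.MP_39eed7_co.SmallDegree
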